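import Pool.Agent.Helper99.TC.Final

/-!
# MP_42dc3d_co, Q1: the asymptotic amplitudes of three-choice polygons (full answer: yes)

`tc n` is the number of three-choice polygons of perimeter `2 n` (file `TC/Defs.lean`). If
`r n = tc (n + 2) / 4 ^ n` has an expansion of type (*), then `√3 π^(3/2) a_i` and
`π^(3/2) c_i` are rational for all `i`.
-/

set_option autoImplicit false

open Filter Asymptotics

namespace Pool.Agent.Results.MP_42dc3d_co.Amplitudes

open Pool.Agent.Helper99.TC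

theorem result (a b c : ℕ → ℝ)
    (h : ∀ N : ℕ, 1 ≤ N →
      (fun n : ℕ => √(n : ℝ) * ((tc (n + 2) : ℝ) / 4 ^ n) -
        (∑ i ∈ Finset.range N, (a i * Real.log n + b i) / (n : ℝ) ^ i +
          (-1) ^ n * ∑ i ∈ Finset.range (N - 7), c i / (n : ℝ) ^ (7 + i)))
      =O[atTop] (fun n : ℕ => Real.log n / (n : ℝ) ^ N)) :
    ∀ i : ℕ, (∃ ρ : ℚ, √3 * Real.pi ^ (3 / 2 : ℝ) * a i = ρ) ∧
      (∃ ρ : ℚ, Real.pi ^ (3 / 2 : ℝ) * c i = ρ) := by
  intro i
  have e : Real.pi ^ (3 / 2 : ℝ) = Real.pi * √Real.pi := by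
    rw [Real.sqrt_eq_rpow, show (3 / 2 : ℝ) = 1 + 1 / 2 by norm_num,
      Real.rpow_add Real.pi_pos, Real.rpow_one]
  rw [e]
  exact tc_amplitudes a b c h i

end Pool.Agent.Results.MP_42dc3d_co.Amplitudes
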